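import Mathlib
import Pool.Agent.H759R2.Kad.Props7

open scoped ComplexOrder InnerProductSpace ComplexConjugate
open Finset

noncomputable section

namespace H759R2.Kad

universe u v

theorem prove7_cen (h1 : R_comm.{u, v}) (h2 : S_final.{u, v}) : R_cen.{u, v} := by
  intro A _ H _ _ _ w hw c hc hb
  let Z : StarSubalgebra ℂ A := StarSubalgebra.centralizer ℂ Set.univ
  have hcl : IsClosed (Z : Set A) := by
    have h : (Z : Set A) = Set.centralizer (Set.univ ∪ star Set.univ) := rfl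
    rw [h]
    exact Set.isClosed_centralizer _
  let _ : CStarAlgebra Z := StarSubalgebra.cstarAlgebra Z (h_closed := hcl)
  let _ : PartialOrder Z := CStarAlgebra.spectralOrder Z
  have _ : StarOrderedRing Z := CStarAlgebra.spectralOrderedRing Z
  have hmem : ∀ z : A, (∀ a, z * a = a * z) → z ∈ Z := by
    intro z hz
    rw [StarSubalgebra.mem_centralizer_iff]
    intro g _
    exact ⟨(hz g).symm, (hz (star g)).symm⟩
  have hcomm : ∀ a b : Z, a * b = b * a := by
    intro a b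
    apply Subtype.ext
    have := (StarSubalgebra.mem_centralizer_iff ℂ).1 b.2 (a : A) (Set.mem_univ _)
    exact this.1
  let w₀ : Z →ₗ[ℂ] (H →L[ℂ] H) := w ∘ₗ (Z.subtype.toAlgHom.toLinearMap)
  have hw₀ : IsHom w₀ := by
    refine ⟨fun a b => ?_, ?_⟩
    · show w ((a * b : Z) : A) = w (a : A) * w (b : A)
      rw [← hw.mul]
      rfl
    · exact hw.one
  have hb₀ : ∀ a : Z, ‖w₀ a‖ ≤ c * ‖a‖ := fun a => hb (a : A)
  have hl := h1 Z hcomm H w₀ hw₀ c hc hb₀
  have hc6 : (1 : ℝ) ≤ 6 * c ^ 2 := by nlinarith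
  obtain ⟨S, S', e1, e2, e3, e4, e5⟩ := h2 Z H w₀ hw₀ (6 * c ^ 2) hc6 hl
  refine ⟨S, S', e1, e2, e3, e4, fun e he => ?_⟩
  have hz := e5 ⟨e, hmem e he.2⟩
  have hs : star (⟨e, hmem e he.2⟩ : Z) = ⟨e, hmem e he.2⟩ := Subtype.ext he.1.1
  rw [hs] at hz
  exact hz

end H759R2.Kad
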