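import Mathlib
import Pool.Agent.H759R2.Kad.Props7

open scoped ComplexOrder InnerProductSpace ComplexConjugate
open Finset

noncomputable section

namespace H759R2.Kad

universe u v

namespace H177Notr

variable {A : Type u} [CStarAlgebra A]

theorem prj_norm_lt {z : A} (hz : Prj z) (h : ‖z‖ < 1) : z = 0 := by
  by_contra hne
  have h1 : ‖z‖ * ‖z‖ = ‖z‖ := by
    have := CStarRing.norm_star_mul_self (x := z)
    rw [hz.1, hz.2] at this
    exact this.symm
  have h2 : 0 < ‖z‖ := norm_pos_iff.mpr hne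
  nlinarith

/-- Tracial functionals on a central projection: the key estimate. -/
theorem key (τ : A →ₗ[ℂ] ℂ) (z z' : A) (hτ : TrOn τ z') (hz : CPrj z) (hz' : CPrj z')
    (hzz : z * z' = z') (s p c : A) (hs : s = p - c) (hp : ∃ y, p = star y * y)
    (hc : ∃ y, c = star y * y) (δ : ℝ) (hδ : 0 < δ) (hn : ‖z * c‖ ≤ δ / 2)
    (h0 : τ (z' * (s + (δ : ℂ) • 1)) = 0) : False := by
  let _ : PartialOrder A := CStarAlgebra.spectralOrder A
  have _ : StarOrderedRing A := CStarAlgebra.spectralOrderedRing A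
  obtain ⟨y, hy⟩ := hp
  obtain ⟨x, hx⟩ := hc
  have e1 : 0 ≤ τ (z' * p) := by
    have h := hτ.pos (y * z')
    have : star (y * z') * (y * z') = z' * p := by
      rw [star_mul, hz'.1.1, hy]
      calc z' * star y * (y * z') = z' * (star y * y * z') := by simp only [mul_assoc]
        _ = z' * (z' * (star y * y)) := by rw [← hz'.2 (star y * y)]
        _ = z' * (star y * y) := by rw [← mul_assoc, hz'.1.2]
    rwa [this] at h
  -- `z * c` is positive of norm at most `δ / 2`
  have hzc : z * c = star (x * z) * (x * z) := by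
    rw [star_mul, hz.1.1, hx]
    calc z * (star x * x) = z * z * (star x * x) := by rw [hz.1.2]
      _ = z * (z * (star x * x)) := by rw [mul_assoc]
      _ = z * (star x * x * z) := by rw [hz.2 (star x * x)]
      _ = z * star x * (x * z) := by simp only [mul_assoc]
  have hpos : 0 ≤ z * c := by
    rw [hzc]
    exact star_mul_self_nonneg _
  have hle : z * c ≤ algebraMap ℝ A (δ / 2) :=
    (CStarAlgebra.norm_le_iff_le_algebraMap _ (by positivity) hpos).1 hn
  have hd : 0 ≤ algebraMap ℝ A (δ / 2) - z * c := sub_nonneg.mpr hle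
  obtain ⟨w, hw⟩ := CStarAlgebra.nonneg_iff_eq_star_mul_self.mp hd
  have e2 : 0 ≤ τ (z' * (algebraMap ℝ A (δ / 2) - z * c)) := by
    have h := hτ.pos (w * z')
    have : star (w * z') * (w * z') = z' * (algebraMap ℝ A (δ / 2) - z * c) := by
      rw [star_mul, hz'.1.1, hw]
      calc z' * star w * (w * z') = z' * (star w * w * z') := by simp only [mul_assoc]
        _ = z' * (z' * (star w * w)) := by rw [← hz'.2 (star w * w)]
        _ = z' * (star w * w) := by rw [← mul_assoc, hz'.1.2]
    rwa [this] at h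
  have hzz' : z' * z = z' := by rw [← hz.2, hzz]
  have e3 : z' * (algebraMap ℝ A (δ / 2) - z * c) = ((δ / 2 : ℝ) : ℂ) • z' - z' * c := by
    rw [mul_sub, ← mul_assoc, hzz', Algebra.algebraMap_eq_smul_one, mul_smul_comm, mul_one]
    congr 1
  rw [e3, map_sub, map_smul, hτ.one] at e2
  have e4 : z' * (s + (δ : ℂ) • 1) = z' * p - z' * c + (δ : ℂ) • z' := by
    rw [hs, mul_add, mul_sub, mul_smul_comm, mul_one]
  rw [e4, map_add, map_sub, map_smul, hτ.one] at h0
  have r1 := (Complex.le_def.1 e1).1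
  have r2 := (Complex.le_def.1 e2).1
  have r3 := congrArg Complex.re h0
  simp at r1 r2 r3
  linarith

end H177Notr

open H177Notr in
theorem prove7_notr (h : Q_hb.{u}) : Q_notr.{u} := by
  intro A _ hVN 𝒰 F _ q hq hno
  let _ : PartialOrder A := CStarAlgebra.spectralOrder A
  have _ : StarOrderedRing A := CStarAlgebra.spectralOrderedRing A
  let _ : PartialOrder F := CStarAlgebra.spectralOrder F
  have _ : StarOrderedRing F := CStarAlgebra.spectralOrderedRing F
  have hone : (1 : F) ≠ 0 := by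
    intro h10
    obtain ⟨z, hz, hzn⟩ := hq.low 1 (1 / 2) (by norm_num)
    have : q 1 = 0 := by rw [map_one, h10]
    rw [this, norm_zero, mul_one, zero_add] at hzn
    have hz0 := prj_norm_lt (hq.ult.sub z hz).1 (by linarith)
    rw [hz0] at hz
    exact hq.ult.zero hz
  obtain ⟨n, x, δ, hδ, hx⟩ := h F hno hone
  choose a ha using fun i => hq.surj (x i)
  set b : A := ∑ i, (star (a i) * a i - a i * star (a i)) with hb
  set s : A := b - (δ : ℂ) • 1 with hs
  have hqs : 0 ≤ q s := by
    rw [CStarAlgebra.nonneg_iff_eq_star_mul_self]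
    have : q s = ∑ i, (star (x i) * x i - x i * star (x i)) - (δ : ℂ) • 1 := by
      rw [hs, hb, map_sub, map_smul, map_one, map_sum]
      congr 1
      refine Finset.sum_congr rfl fun i _ => ?_
      rw [map_sub, map_mul, map_mul, map_star, ha i]
    rw [this]
    exact hx
  have hsa : IsSelfAdjoint s := by
    rw [hs, hb]
    refine IsSelfAdjoint.sub ?_ ?_
    · refine isSelfAdjoint_sum _ fun i _ => ?_
      exact (IsSelfAdjoint.star_mul_self (a i)).sub (IsSelfAdjoint.mul_star_self (a i))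
    · rw [IsSelfAdjoint, star_smul, star_one]
      congr 1
      exact Complex.conj_ofReal δ
  have hdec : s⁺ - s⁻ = s := CFC.posPart_sub_negPart s hsa
  have hp0 : 0 ≤ s⁺ := CFC.posPart_nonneg s
  have hn0 : 0 ≤ s⁻ := CFC.negPart_nonneg s
  have hqmap : ∀ y : A, 0 ≤ y → 0 ≤ q y := by
    intro y hy
    obtain ⟨t, rfl⟩ := CStarAlgebra.nonneg_iff_eq_star_mul_self.mp hy
    rw [map_mul, map_star]
    exact star_mul_self_nonneg _
  have hqn : q s⁻ = 0 := by
    have hu := CFC.posPart_negPart_unique (a := q s) (b := q s⁺) (c := q s⁻)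
      (by rw [← map_sub, hdec]) (by rw [← map_mul, CFC.posPart_mul_negPart, map_zero])
      (hqmap _ hp0) (hqmap _ hn0)
    rw [← hu.2]
    exact (CFC.negPart_eq_zero_iff (q s) hqs.isSelfAdjoint).2 hqs
  obtain ⟨z, hz, hzn⟩ := hq.low s⁻ (δ / 2) (by linarith)
  rw [hqn, norm_zero, zero_add] at hzn
  have hzc := hq.ult.sub z hz
  obtain ⟨s₁, s₂, e1, e2, e3, -, -⟩ := hVN.alt z hzc (by
    rintro z' hz' hzz' hz'0 ⟨τ, hτ⟩
    refine key τ z z' hτ hzc hz' hzz' s s⁺ s⁻ hdec.symm
      (CStarAlgebra.nonneg_iff_eq_star_mul_self.mp hp0)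
      (CStarAlgebra.nonneg_iff_eq_star_mul_self.mp hn0) δ hδ hzn ?_
    have : s + (δ : ℂ) • 1 = b := by rw [hs]; abel
    rw [this, hb, Finset.mul_sum, map_sum]
    refine Finset.sum_eq_zero fun i _ => ?_
    rw [mul_sub, map_sub, sub_eq_zero]
    calc τ (z' * (star (a i) * a i)) = τ (z' * star (a i) * a i) := by rw [mul_assoc]
      _ = τ (a i * (z' * star (a i))) := hτ.comm _ _
      _ = τ (z' * (a i * star (a i))) := by
        rw [← mul_assoc, ← hz'.2, mul_assoc])
  have hq1 := hq.one z hz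
  refine ⟨q s₁, q s₂, ?_, ?_, ?_⟩
  · rw [← map_star, ← map_mul, e1, hq1]
  · rw [← map_star, ← map_mul, e2, hq1]
  · rw [← map_star, ← map_mul, e3, map_zero]

end H759R2.Kad
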